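import Mathlib
import Pool.Agent.Helper39.KZ.Stmts

open Metric Set Filter Topology Complex
open scoped Nat

namespace KZ.Rk

/-- `k`-th Taylor coefficient at `0`. -/
noncomputable def tc {E : Type*} [NormedAddCommGroup E] [NormedSpace ℂ E] (k : ℕ) (f : ℂ → E) : E :=
  ((k ! : ℂ)⁻¹) • iteratedDeriv k f 0

/-- The Faber polynomials of `1 / g (1 / w)`. -/
noncomputable def Fab (g : ℂ → ℂ) (k : ℕ) : Polynomial ℂ :=
  ∑ j ∈ Finset.range (k + 1), Polynomial.C (tc k (fun t => tau g t * g t ^ j)) * Polynomial.X ^ j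

section basics

variable {g : ℂ → ℂ}

theorem dslope_diff (hg : DifferentiableOn ℂ g (ball 0 1)) {c : ℂ} (hc : c ∈ ball (0:ℂ) 1) :
    DifferentiableOn ℂ (dslope g c) (ball 0 1) :=
  (Complex.differentiableOn_dslope (isOpen_ball.mem_nhds hc)).2 hg

theorem dslope_ne (hinj : InjOn g (ball 0 1)) (hd : ∀ t ∈ ball (0:ℂ) 1, deriv g t ≠ 0)
    {s t : ℂ} (hs : s ∈ ball (0:ℂ) 1) (ht : t ∈ ball (0:ℂ) 1) : dslope g s t ≠ 0 := by
  by_cases h : t = s
  · subst h
    rw [dslope_same]
    exact hd _ ht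
  · rw [dslope_of_ne _ h, slope_def_field]
    exact div_ne_zero (sub_ne_zero.2 fun e => h (hinj ht hs e)) (sub_ne_zero.2 h)

theorem mem0 : (0:ℂ) ∈ ball (0:ℂ) 1 := mem_ball_self one_pos

theorem tau_diff (hg : DifferentiableOn ℂ g (ball 0 1)) (hinj : InjOn g (ball 0 1))
    (hd : ∀ t ∈ ball (0:ℂ) 1, deriv g t ≠ 0) : DifferentiableOn ℂ (tau g) (ball 0 1) :=
  (hg.deriv isOpen_ball).div (dslope_diff hg mem0) fun _ ht => dslope_ne hinj hd mem0 ht

theorem tau_zero (hd : ∀ t ∈ ball (0:ℂ) 1, deriv g t ≠ 0) : tau g 0 = 1 := by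
  rw [tau, dslope_same, div_self (hd 0 mem0)]

theorem tau_eq (h0 : g 0 = 0) {t : ℂ} (ht : t ≠ 0) : tau g t = t * deriv g t / g t := by
  rw [tau, dslope_of_ne _ ht, slope_def_field, h0, sub_zero, sub_zero]
  by_cases hg : g t = 0
  · rw [hg]; simp
  · field_simp

theorem g_ne (hinj : InjOn g (ball 0 1)) (h0 : g 0 = 0) {t : ℂ} (ht : t ∈ ball (0:ℂ) 1) (h : t ≠ 0) :
    g t ≠ 0 := fun e => h (hinj ht mem0 (e.trans h0.symm))

end basics

section coeff

variable {E : Type*} [NormedAddCommGroup E] [NormedSpace ℂ E]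

theorem tc_congr {k : ℕ} {f h : ℂ → E} (e : f =ᶠ[𝓝 0] h) : tc k f = tc k h := by
  rw [tc, tc, Filter.EventuallyEq.iteratedDeriv_eq k e]

theorem tc_add [CompleteSpace E] {k : ℕ} {f h : ℂ → E} (hf : AnalyticAt ℂ f 0)
    (hh : AnalyticAt ℂ h 0) :
    tc k (fun t => f t + h t) = tc k f + tc k h := by
  rw [tc, tc, tc, ← smul_add]
  congr 1
  exact iteratedDeriv_add hf.contDiffAt hh.contDiffAt

theorem tc_sub [CompleteSpace E] {k : ℕ} {f h : ℂ → E} (hf : AnalyticAt ℂ f 0)
    (hh : AnalyticAt ℂ h 0) :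
    tc k (fun t => f t - h t) = tc k f - tc k h := by
  rw [tc, tc, tc, ← smul_sub]
  congr 1
  exact iteratedDeriv_sub hf.contDiffAt hh.contDiffAt

theorem tc_sum [CompleteSpace E] {ι : Type*} {k : ℕ} (I : Finset ι) {f : ι → ℂ → E}
    (hf : ∀ i ∈ I, AnalyticAt ℂ (f i) 0) :
    tc k (fun t => ∑ i ∈ I, f i t) = ∑ i ∈ I, tc k (f i) := by
  rw [tc]
  simp only [tc]
  rw [← Finset.smul_sum]
  congr 1
  exact iteratedDeriv_fun_sum fun i hi => (hf i hi).contDiffAt

theorem tc_pow_smul [CompleteSpace E] {k n : ℕ} (hkn : k < n) {f : ℂ → E} (hf : AnalyticAt ℂ f 0) :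
    tc k (fun t => t ^ n • f t) = 0 := by
  have han : AnalyticAt ℂ (fun t : ℂ => t ^ n • f t) 0 := (analyticAt_id.pow n).smul hf
  have : (n : ℕ∞) ≤ analyticOrderAt (fun t : ℂ => t ^ n • f t) 0 := by
    rw [natCast_le_analyticOrderAt han]
    exact ⟨f, hf, by simp⟩
  rw [tc, (natCast_le_analyticOrderAt_iff_iteratedDeriv_eq_zero han).1 this k hkn, smul_zero]

theorem tc_const_mul {k : ℕ} (f : ℂ → ℂ) (c : ℂ) :
    tc k (fun t => c * f t) = c * tc k f := by
  rw [tc, tc, iteratedDeriv_const_mul_field]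
  simp only [smul_eq_mul]
  ring

theorem tc_pow {k j : ℕ} : tc k (fun t : ℂ => t ^ j) = if k = j then 1 else 0 := by
  rw [tc, iteratedDeriv_fun_pow_zero]
  split_ifs with h
  · subst h
    rw [smul_eq_mul, inv_mul_cancel₀ (by exact_mod_cast Nat.factorial_ne_zero k)]
  · simp

theorem tc_geom (t : ℂ) (ht : t ≠ 0) (k : ℕ) : tc k (fun s : ℂ => t / (t - s)) = (t⁻¹) ^ k := by
  have h1 : (fun s : ℂ => t / (t - s)) =ᶠ[𝓝 0] fun s =>
      (∑ j ∈ Finset.range (k + 1), (t⁻¹) ^ j * s ^ j) + s ^ (k + 1) • ((t⁻¹) ^ k / (t - s)) := by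
    have : ∀ᶠ s in 𝓝 (0:ℂ), s ≠ t := by
      filter_upwards [isOpen_ne.mem_nhds (show (0:ℂ) ∈ {s | s ≠ t} from ht.symm)] with s hs using hs
    filter_upwards [this] with s hs
    have hs' : t - s ≠ 0 := sub_ne_zero.2 hs.symm
    have hg := geom_sum_mul (t⁻¹ * s) (k + 1)
    have e1 : (∑ j ∈ Finset.range (k + 1), (t⁻¹) ^ j * s ^ j) * (t⁻¹ * s - 1) = (t⁻¹ * s) ^ (k+1) - 1 := by
      rw [← hg]
      congr 1
      exact Finset.sum_congr rfl fun j _ => (mul_pow _ _ _).symm
    have e2 : (∑ j ∈ Finset.range (k + 1), (t⁻¹) ^ j * s ^ j) * (s - t) = t * ((t⁻¹ * s) ^ (k+1) - 1) := by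
      rw [← e1]; field_simp
    have e3 : (∑ j ∈ Finset.range (k + 1), (t⁻¹) ^ j * s ^ j) = t * (1 - (t⁻¹ * s) ^ (k+1)) / (t - s) := by
      rw [eq_div_iff hs']
      linear_combination - e2
    rw [e3, smul_eq_mul, mul_pow, pow_succ (t⁻¹)]
    field_simp
    ring
  rw [tc_congr h1, tc_add, tc_sum, tc_pow_smul (Nat.lt_succ_self k), add_zero]
  · simp only [tc_const_mul, tc_pow]
    simp
  · refine analyticAt_const.div (analyticAt_const.sub analyticAt_id) (by simpa using ht)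
  · intro i _
    exact analyticAt_const.mul (analyticAt_id.pow i)
  · exact Finset.analyticAt_fun_sum _ fun i _ => analyticAt_const.mul (analyticAt_id.pow i)
  · exact (analyticAt_id.pow _).smul
      (analyticAt_const.div (analyticAt_const.sub analyticAt_id) (by simpa using ht))

end coeff

section faber

variable {g : ℂ → ℂ}

theorem an_at {f : ℂ → ℂ} (hf : DifferentiableOn ℂ f (ball 0 1)) : AnalyticAt ℂ f 0 :=
  hf.analyticAt (isOpen_ball.mem_nhds mem0)

theorem g_factor (h0 : g 0 = 0) (s : ℂ) : g s = s * dslope g 0 s := by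
  have := sub_smul_dslope g 0 s
  rw [sub_zero, h0, sub_zero, smul_eq_mul] at this
  exact this.symm

theorem tc_fab (hg : DifferentiableOn ℂ g (ball 0 1)) (hinj : InjOn g (ball 0 1))
    (hd : ∀ t ∈ ball (0:ℂ) 1, deriv g t ≠ 0) (h0 : g 0 = 0) (z : ℂ) (k : ℕ) :
    tc k (fun s => tau g s / (1 - g s * z)) = (Fab g k).eval z := by
  have hga : AnalyticAt ℂ g 0 := an_at hg
  have hta : AnalyticAt ℂ (tau g) 0 := an_at (tau_diff hg hinj hd)
  have hda : AnalyticAt ℂ (dslope g 0) 0 := an_at (dslope_diff hg mem0)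
  have hdiv : AnalyticAt ℂ (fun s => tau g s * dslope g 0 s ^ (k+1) * z ^ (k+1) / (1 - g s * z)) 0 :=
    ((hta.mul (hda.pow _)).mul analyticAt_const).div
      (analyticAt_const.sub (hga.mul analyticAt_const)) (by simp [h0])
  have h1 : (fun s : ℂ => tau g s / (1 - g s * z)) =ᶠ[𝓝 0] fun s =>
      (∑ j ∈ Finset.range (k + 1), z ^ j * (tau g s * g s ^ j)) +
        s ^ (k + 1) • (tau g s * dslope g 0 s ^ (k+1) * z ^ (k+1) / (1 - g s * z)) := by
    have hc : ContinuousAt (fun s => 1 - g s * z) 0 :=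
      continuousAt_const.sub (hga.continuousAt.mul continuousAt_const)
    have : ∀ᶠ s in 𝓝 (0:ℂ), 1 - g s * z ≠ 0 := hc.eventually_ne (by simp [h0])
    filter_upwards [this] with s hs
    have hgs := geom_sum_mul (g s * z) (k + 1)
    have e1 : (∑ j ∈ Finset.range (k + 1), z ^ j * (tau g s * g s ^ j)) * (g s * z - 1) =
        tau g s * ((g s * z) ^ (k+1) - 1) := by
      rw [← hgs, Finset.sum_mul, Finset.sum_mul, Finset.mul_sum]
      refine Finset.sum_congr rfl fun j _ => ?_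
      rw [mul_pow]; ring
    have e3 : (∑ j ∈ Finset.range (k + 1), z ^ j * (tau g s * g s ^ j)) =
        tau g s * (1 - (g s * z) ^ (k+1)) / (1 - g s * z) := by
      rw [eq_div_iff hs]
      linear_combination - e1
    have e4 : (g s * z) ^ (k+1) = s ^ (k+1) * (dslope g 0 s ^ (k+1) * z ^ (k+1)) := by
      rw [mul_pow, ← mul_assoc, ← mul_pow s, ← g_factor h0 s]
    rw [e3, smul_eq_mul, e4]
    generalize dslope g 0 s = D
    generalize tau g s = T
    rw [← mul_div_assoc, ← add_div]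
    congr 1
    ring
  have hj : ∀ j, AnalyticAt ℂ (fun s => tau g s * g s ^ j) 0 := fun j => hta.mul (hga.pow j)
  rw [tc_congr h1, tc_add, tc_sum, tc_pow_smul (Nat.lt_succ_self k) hdiv, add_zero, Fab,
    Polynomial.eval_finsetSum]
  · refine Finset.sum_congr rfl fun j _ => ?_
    rw [tc_const_mul, Polynomial.eval_mul, Polynomial.eval_C, Polynomial.eval_pow,
      Polynomial.eval_X, mul_comm]
  · intro i _
    exact analyticAt_const.mul (hj i)
  · exact Finset.analyticAt_fun_sum _ fun i _ => analyticAt_const.mul (hj i)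
  · exact (analyticAt_id.pow _).smul hdiv

end faber

section kernel

variable {g : ℂ → ℂ}

/-- numerator over divided difference -/
noncomputable def hh (g : ℂ → ℂ) (t s : ℂ) : ℂ := (tau g s * g t - t * dslope g t s) / dslope g t s

/-- `R(s,t) = Q(s,t) - t/(t-s)` with the removable singularity removed. -/
noncomputable def Rt (g : ℂ → ℂ) (t s : ℂ) : ℂ := - dslope (hh g t) t s

theorem hh_diff (hg : DifferentiableOn ℂ g (ball 0 1)) (hinj : InjOn g (ball 0 1))
    (hd : ∀ t ∈ ball (0:ℂ) 1, deriv g t ≠ 0) {t : ℂ} (ht : t ∈ ball (0:ℂ) 1) :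
    DifferentiableOn ℂ (hh g t) (ball 0 1) :=
  (((tau_diff hg hinj hd).mul_const _).sub ((dslope_diff hg ht).const_mul _)).div
    (dslope_diff hg ht) fun _ hs => dslope_ne hinj hd ht hs

theorem hh_self (hinj : InjOn g (ball 0 1)) (h0 : g 0 = 0)
    {t : ℂ} (ht : t ∈ ball (0:ℂ) 1) (htn : t ≠ 0) : hh g t t = 0 := by
  have := g_ne hinj h0 ht htn
  rw [hh, dslope_same, tau_eq h0 htn]
  have : t * deriv g t / g t * g t - t * deriv g t = 0 := by field_simp; ring
  rw [this, zero_div]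

theorem Rt_diff (hg : DifferentiableOn ℂ g (ball 0 1)) (hinj : InjOn g (ball 0 1))
    (hd : ∀ t ∈ ball (0:ℂ) 1, deriv g t ≠ 0) {t : ℂ} (ht : t ∈ ball (0:ℂ) 1) :
    DifferentiableOn ℂ (Rt g t) (ball 0 1) :=
  (dslope_diff (hh_diff hg hinj hd ht) ht).neg

theorem Rt_eq (hinj : InjOn g (ball 0 1)) (hd : ∀ t ∈ ball (0:ℂ) 1, deriv g t ≠ 0) (h0 : g 0 = 0)
    {t : ℂ} (ht : t ∈ ball (0:ℂ) 1) (htn : t ≠ 0) {s : ℂ} (hs : s ∈ ball (0:ℂ) 1) (hst : s ≠ t) :
    Rt g t s = tau g s * g t / (g t - g s) - t / (t - s) := by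
  have h1 : dslope g t s ≠ 0 := dslope_ne hinj hd ht hs
  have h2 : g t - g s ≠ 0 := sub_ne_zero.2 fun e => hst (hinj hs ht e.symm)
  have h3 : t - s ≠ 0 := sub_ne_zero.2 hst.symm
  have h3' : s - t ≠ 0 := sub_ne_zero.2 hst
  have h4 : (s - t) * dslope g t s = g s - g t := sub_smul_dslope g t s
  rw [Rt, dslope_of_ne _ hst, slope_def_field, hh_self hinj h0 ht htn, sub_zero, hh]
  have h5 : g t - g s = (t - s) * dslope g t s := by linear_combination h4
  rw [h5]
  field_simp
  ring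

theorem Rt_zero (hinj : InjOn g (ball 0 1)) (hd : ∀ t ∈ ball (0:ℂ) 1, deriv g t ≠ 0) (h0 : g 0 = 0)
    {t : ℂ} (ht : t ∈ ball (0:ℂ) 1) (htn : t ≠ 0) : Rt g t 0 = 0 := by
  have := g_ne hinj h0 ht htn
  rw [Rt_eq hinj hd h0 ht htn mem0 htn.symm, tau_zero hd, h0, sub_zero, sub_zero, one_mul,
    div_self this, div_self htn, sub_self]

theorem tc_Rt (hg : DifferentiableOn ℂ g (ball 0 1)) (hinj : InjOn g (ball 0 1))
    (hd : ∀ t ∈ ball (0:ℂ) 1, deriv g t ≠ 0) (h0 : g 0 = 0)
    {t : ℂ} (ht : t ∈ ball (0:ℂ) 1) (htn : t ≠ 0) (k : ℕ) :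
    tc k (Rt g t) = (Fab g k).eval (g t)⁻¹ - (t⁻¹) ^ k := by
  have hga : AnalyticAt ℂ g 0 := an_at hg
  have hta : AnalyticAt ℂ (tau g) 0 := an_at (tau_diff hg hinj hd)
  have hgt := g_ne hinj h0 ht htn
  have h1 : Rt g t =ᶠ[𝓝 0] fun s => tau g s / (1 - g s * (g t)⁻¹) - t / (t - s) := by
    have hev : ∀ᶠ s in 𝓝 (0:ℂ), s ≠ t := isOpen_ne.mem_nhds (show (0:ℂ) ∈ {s | s ≠ t} from htn.symm)
    filter_upwards [hev, isOpen_ball.mem_nhds mem0] with s hs hsb
    rw [Rt_eq hinj hd h0 ht htn hsb hs]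
    congr 1
    have h2 : g t - g s ≠ 0 := sub_ne_zero.2 fun e => hs (hinj hsb ht e.symm)
    have h3 : 1 - g s * (g t)⁻¹ ≠ 0 := by
      intro e
      apply h2
      field_simp at e
      simpa using e
    rw [div_eq_div_iff h2 h3]
    field_simp
  rw [tc_congr h1, tc_sub, tc_fab hg hinj hd h0, tc_geom t htn]
  · exact hta.div (analyticAt_const.sub (hga.mul analyticAt_const)) (by simp [h0])
  · exact analyticAt_const.div (analyticAt_const.sub analyticAt_id) (by simpa using htn)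

/-- `R_k(t) = F_k(1/g(t)) - t⁻ᵏ` -/
noncomputable def RR (g : ℂ → ℂ) (k : ℕ) (t : ℂ) : ℂ :=
  if t = 0 then 0 else (Fab g k).eval (g t)⁻¹ - (t⁻¹) ^ k

theorem tc_norm {k : ℕ} {f : ℂ → ℂ} {R C : ℝ} (hR : 0 < R) (hf : DiffContOnCl ℂ f (ball 0 R))
    (hC : ∀ z ∈ sphere (0:ℂ) R, ‖f z‖ ≤ C) : ‖tc k f‖ ≤ C / R ^ k := by
  have h := Complex.norm_iteratedDeriv_le_of_forall_mem_sphere_norm_le k hR hf hC
  have hk : (0:ℝ) < (k ! : ℝ) := by exact_mod_cast Nat.factorial_pos k
  rw [tc, norm_smul, norm_inv, Complex.norm_natCast, inv_mul_le_iff₀ hk]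
  calc _ ≤ _ := h
    _ = _ := by ring

theorem dcl {f : ℂ → ℂ} (hf : DifferentiableOn ℂ f (ball 0 1)) {r : ℝ} (hr : r < 1) :
    DiffContOnCl ℂ f (ball 0 r) := by
  refine DifferentiableOn.diffContOnCl (hf.mono ?_)
  exact closure_ball_subset_closedBall.trans (closedBall_subset_ball hr)

theorem RR_eq (hg : DifferentiableOn ℂ g (ball 0 1)) (hinj : InjOn g (ball 0 1))
    (hd : ∀ t ∈ ball (0:ℂ) 1, deriv g t ≠ 0) (h0 : g 0 = 0)
    {t : ℂ} (ht : t ∈ ball (0:ℂ) 1) (htn : t ≠ 0) (k : ℕ) :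
    RR g k t = tc k (Rt g t) := by
  rw [tc_Rt hg hinj hd h0 ht htn, RR, if_neg htn]

theorem RR_tendsto (hg : DifferentiableOn ℂ g (ball 0 1)) (hinj : InjOn g (ball 0 1))
    (hd : ∀ t ∈ ball (0:ℂ) 1, deriv g t ≠ 0) (h0 : g 0 = 0) (k : ℕ) :
    ContinuousAt (RR g k) 0 := by
  have hsub : sphere (0:ℂ) (1/2) ⊆ ball 0 1 := by
    intro s hs
    rw [mem_sphere_zero_iff_norm] at hs
    rw [mem_ball_zero_iff, hs]; norm_num
  have hcomp : IsCompact (sphere (0:ℂ) (1/2)) := isCompact_sphere _ _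
  have hne : (sphere (0:ℂ) (1/2)).Nonempty := NormedSpace.sphere_nonempty.2 (by norm_num)
  obtain ⟨s0, hs0, hm⟩ := hcomp.exists_isMinOn hne (f := fun s => ‖g s‖)
    ((hg.continuousOn.mono hsub).norm)
  have hm' : ∀ s ∈ sphere (0:ℂ) (1/2), ‖g s0‖ ≤ ‖g s‖ := fun s hs => hm hs
  obtain ⟨M, hM⟩ := hcomp.exists_bound_of_continuousOn
    ((tau_diff hg hinj hd).continuousOn.mono hsub)
  set m := ‖g s0‖ with hmdef
  have hmpos : 0 < m := by
    rw [hmdef, norm_pos_iff]
    refine g_ne hinj h0 (hsub hs0) ?_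
    intro e
    rw [e] at hs0
    simp at hs0
  have hMnn : 0 ≤ M := (norm_nonneg _).trans (hM s0 hs0)
  have hgc : ContinuousAt g 0 := (an_at hg).continuousAt
  have hlim : Tendsto (fun t : ℂ => (M * ‖g t‖ / (m / 2) + ‖t‖ / (1/4)) / (1/2) ^ k) (𝓝 0) (𝓝 0) := by
    have h1 : Tendsto (fun t : ℂ => ‖g t‖) (𝓝 0) (𝓝 0) := by
      have := hgc.norm
      rw [ContinuousAt, h0, norm_zero] at this
      exact this
    have h2 : Tendsto (fun t : ℂ => ‖t‖) (𝓝 0) (𝓝 0) := tendsto_norm_zero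
    have := (((h1.const_mul M).div_const (m/2)).add (h2.div_const (1/4))).div_const ((1/2:ℝ)^k)
    simpa using this
  have hR0 : RR g k 0 = 0 := by rw [RR, if_pos rfl]
  rw [ContinuousAt, hR0]
  refine squeeze_zero_norm' ?_ hlim
  have e1 : ∀ᶠ t in 𝓝 (0:ℂ), ‖g t‖ < m / 2 := by
    have := hgc.norm
    rw [ContinuousAt, h0, norm_zero] at this
    exact this.eventually (gt_mem_nhds (half_pos hmpos))
  have e2 : ∀ᶠ t in 𝓝 (0:ℂ), t ∈ ball (0:ℂ) (1/4) :=
    isOpen_ball.mem_nhds (mem_ball_self (by norm_num))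
  filter_upwards [e1, e2] with t h1 h2
  rw [mem_ball_zero_iff] at h2
  by_cases htn : t = 0
  · rw [htn, hR0, norm_zero]
    positivity
  have ht : t ∈ ball (0:ℂ) 1 := by rw [mem_ball_zero_iff]; linarith
  rw [RR_eq hg hinj hd h0 ht htn]
  refine tc_norm (by norm_num) (dcl (Rt_diff hg hinj hd ht) (by norm_num)) ?_
  intro s hs
  have hsn : ‖s‖ = 1/2 := by rwa [mem_sphere_zero_iff_norm] at hs
  have hst : s ≠ t := by
    rintro rfl
    linarith
  rw [Rt_eq hinj hd h0 ht htn (hsub hs) hst]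
  refine (norm_sub_le _ _).trans (add_le_add ?_ ?_)
  · rw [norm_div, norm_mul]
    have a1 : m / 2 ≤ ‖g t - g s‖ := by
      have := norm_sub_norm_le (g s) (g t)
      have h3 := hm' s hs
      rw [norm_sub_rev] at this
      linarith
    have a2 := hM s hs
    gcongr
  · rw [norm_div]
    have a1 : 1/4 ≤ ‖t - s‖ := by
      have := norm_sub_norm_le s t
      rw [norm_sub_rev] at this
      linarith
    gcongr

theorem RR_diff (hg : DifferentiableOn ℂ g (ball 0 1)) (hinj : InjOn g (ball 0 1))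
    (hd : ∀ t ∈ ball (0:ℂ) 1, deriv g t ≠ 0) (h0 : g 0 = 0) (k : ℕ) :
    DifferentiableOn ℂ (RR g k) (ball 0 1) := by
  have hpt : ∀ t ∈ ball (0:ℂ) 1, t ≠ 0 → DifferentiableAt ℂ (RR g k) t := by
    intro t ht htn
    have hgt : DifferentiableAt ℂ g t := hg.differentiableAt (isOpen_ball.mem_nhds ht)
    have hd1 : DifferentiableAt ℂ (fun t => (Fab g k).eval (g t)⁻¹ - (t⁻¹) ^ k) t :=
      ((Polynomial.differentiable (Fab g k)).differentiableAt.comp t
        (hgt.inv (g_ne hinj h0 ht htn))).sub ((differentiableAt_id.inv htn).pow k)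
    refine hd1.congr_of_eventuallyEq ?_
    filter_upwards [isOpen_ne.mem_nhds htn] with u hu
    rw [RR, if_neg hu]
  intro t ht
  by_cases htn : t = 0
  · rw [htn]
    refine (Complex.analyticAt_of_differentiable_on_punctured_nhds_of_continuousAt ?_
      (RR_tendsto hg hinj hd h0 k)).differentiableAt.differentiableWithinAt
    rw [eventually_nhdsWithin_iff]
    filter_upwards [isOpen_ball.mem_nhds mem0] with u hu hu'
    exact hpt u hu hu'
  · exact (hpt t ht htn).differentiableWithinAt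

theorem av_tc {f : ℂ → ℂ} (hf : DifferentiableOn ℂ f (ball 0 1)) {r : ℝ} (hr0 : 0 < r) (hr : r < 1)
    (k : ℕ) : av r (fun s => s⁻¹ ^ k * f s) = tc k f := by
  have h := (dcl hf hr).circleIntegral_one_div_sub_center_pow_smul hr0 k
  rw [av, Real.circleAverage_eq_circleIntegral hr0.ne', tc]
  have e : (fun z : ℂ => (z - 0)⁻¹ • (z⁻¹ ^ k * f z)) = fun z => (1 / (z - 0) ^ (k + 1)) • f z := by
    funext z
    rw [smul_eq_mul, smul_eq_mul, sub_zero, one_div, ← inv_pow, pow_succ]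
    ring
  rw [e, h, smul_smul, smul_eq_mul, smul_eq_mul]
  have hp : (2 * (Real.pi : ℂ) * Complex.I) ≠ 0 := by
    simp [Real.pi_ne_zero, Complex.I_ne_zero]
  have hk : ((k ! : ℕ) : ℂ) ≠ 0 := by exact_mod_cast Nat.factorial_ne_zero k
  field_simp

theorem fab_eq (hg : DifferentiableOn ℂ g (ball 0 1)) (hinj : InjOn g (ball 0 1))
    (hd : ∀ t ∈ ball (0:ℂ) 1, deriv g t ≠ 0) {r : ℝ} (hr0 : 0 < r) (hr : r < 1) (k : ℕ) :
    fab g r k = Fab g k := by
  rw [fab, Fab]
  refine Finset.sum_congr rfl fun j _ => ?_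
  rw [av_tc (f := fun t => tau g t * g t ^ j) ((tau_diff hg hinj hd).mul (hg.pow j)) hr0 hr]

end kernel

/-- **RK** -/
theorem rk_of (hLVL : ST_LVL) : ST_RK := by
  intro K g hK hE r hr0 hr
  have hg := hE.diff
  have hinj := hE.inj
  have hd := hE.der
  have h0 := hE.zero
  refine ⟨RR g, ?_, ?_⟩
  · intro k _
    refine ⟨RR_diff hg hinj hd h0 k, by rw [RR, if_pos rfl], ?_⟩
    intro t ht htn
    rw [fab_eq hg hinj hd hr0 hr, RR, if_neg htn]
    ring
  · intro t ht
    have htn' : ‖t‖ = r := by rwa [mem_sphere_zero_iff_norm] at ht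
    have hsub : sphere (0:ℂ) r ⊆ ball 0 1 := by
      intro s hs
      rw [mem_sphere_zero_iff_norm] at hs
      rw [mem_ball_zero_iff, hs]; exact hr
    have htb := hsub ht
    have htn : t ≠ 0 := by
      rw [← norm_pos_iff, htn']; exact hr0
    have hRd := Rt_diff hg hinj hd htb
    have hRc : ContinuousOn (Rt g t) (sphere 0 r) := hRd.continuousOn.mono hsub
    have hci : ∀ f : ℂ → ℂ, ContinuousOn f (sphere 0 r) → CircleIntegrable f 0 r :=
      fun f hf => hf.circleIntegrable hr0.le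
    have habs : |r| = r := abs_of_pos hr0
    have hmean : av r (Rt g t) = 0 := by
      rw [av, DiffContOnCl.circleAverage (by rw [habs]; exact dcl hRd hr)]
      exact Rt_zero hinj hd h0 htb htn
    refine ⟨fun s => 1 + 2 * (Rt g t s).re, ?_, ?_, ?_, ?_⟩
    · exact continuousOn_const.add (continuousOn_const.mul (Complex.continuous_re.comp_continuousOn hRc))
    · have hoff : ∀ s ∈ sphere (0:ℂ) r, s ≠ t → 0 ≤ 1 + 2 * (Rt g t s).re := by
        intro s hs hst
        have hsn : ‖s‖ = r := by rwa [mem_sphere_zero_iff_norm] at hs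
        have hQ := hLVL K g hK hE s (hsub hs) t htb (by rw [hsn, htn']) hst
        rw [Rt_eq hinj hd h0 htb htn (hsub hs) hst, Complex.sub_re]
        rw [Qk] at hQ
        have hhalf : (t / (t - s)).re = 1 / 2 := by
          have h3 : t - s ≠ 0 := sub_ne_zero.2 hst.symm
          have h4 : Complex.normSq (t - s) ≠ 0 := by rwa [Ne, Complex.normSq_eq_zero]
          have h5 : Complex.normSq t = Complex.normSq s := by
            rw [Complex.normSq_eq_norm_sq, Complex.normSq_eq_norm_sq, hsn, htn']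
          rw [Complex.div_re]
          rw [← add_div, div_eq_div_iff h4 two_ne_zero]
          rw [Complex.normSq_apply] at *
          rw [Complex.normSq_apply] at h5
          simp only [Complex.sub_re, Complex.sub_im] at *
          nlinarith
        linarith
      intro s hs
      by_cases hst : s = t
      · subst hst
        have hcont : ContinuousOn (fun u : ℂ => 1 + 2 * (Rt g s u).re) (sphere 0 r) :=
          continuousOn_const.add
            (continuousOn_const.mul (Complex.continuous_re.comp_continuousOn hRc))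
        have hmaps : ∀ θ : ℝ, s * Complex.exp (θ * Complex.I) ∈ sphere (0:ℂ) r := by
          intro θ
          rw [mem_sphere_zero_iff_norm, norm_mul, Complex.norm_exp_ofReal_mul_I, mul_one, htn']
        have hc : Continuous fun θ : ℝ => s * Complex.exp (θ * Complex.I) := by fun_prop
        have hcc : Continuous fun θ : ℝ => 1 + 2 * (Rt g s (s * Complex.exp (θ * Complex.I))).re :=
          hcont.comp_continuous hc hmaps
        have ht0 : Tendsto (fun θ : ℝ => 1 + 2 * (Rt g s (s * Complex.exp (θ * Complex.I))).re)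
            (𝓝[>] 0) (𝓝 (1 + 2 * (Rt g s s).re)) := by
          have := (hcc.tendsto 0).mono_left (nhdsWithin_le_nhds (s := Ioi (0:ℝ)))
          simpa using this
        refine ge_of_tendsto ht0 ?_
        have hpi : Iio Real.pi ∈ 𝓝[>] (0:ℝ) :=
          mem_nhdsWithin_of_mem_nhds (Iio_mem_nhds Real.pi_pos)
        filter_upwards [hpi, self_mem_nhdsWithin] with θ hθ1 hθ2
        refine hoff _ (hmaps θ) ?_
        intro e
        have e1 : Complex.exp (θ * Complex.I) = 1 := by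
          have : s * Complex.exp (θ * Complex.I) = s * 1 := by rw [e, mul_one]
          exact mul_left_cancel₀ htn this
        have e2 := congrArg Complex.im e1
        rw [Complex.exp_ofReal_mul_I_im, Complex.one_im] at e2
        exact (Real.sin_pos_of_pos_of_lt_pi hθ2 hθ1).ne' e2
      · exact hoff s hs hst
    · have hre : av r (fun s => (Rt g t s).re) = 0 := by
        have h := Complex.reCLM.circleAverage_comp_comm (hci _ hRc)
        have h' : (Complex.reCLM : ℂ → ℝ) ∘ Rt g t = fun s => (Rt g t s).re := rfl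
        rw [h'] at h
        change Real.circleAverage (Rt g t) 0 r = 0 at hmean
        rw [av, h, hmean]; rfl
      have hrc : CircleIntegrable (fun s => (Rt g t s).re) 0 r :=
        (Complex.continuous_re.comp_continuousOn hRc).circleIntegrable hr0.le
      have e1 : av r (fun s => 1 + 2 * (Rt g t s).re) = av r (fun _ => (1:ℝ)) +
          av r (fun s => 2 * (Rt g t s).re) :=
        Real.circleAverage_fun_add (continuousOn_const.circleIntegrable hr0.le)
          ((continuousOn_const.mul (Complex.continuous_re.comp_continuousOn hRc)).circleIntegrable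
            hr0.le)
      have e2 : av r (fun s => 2 * (Rt g t s).re) = 2 * av r (fun s => (Rt g t s).re) :=
        Real.circleAverage_fun_smul (a := (2:ℝ))
      rw [e1, e2, hre, mul_zero, add_zero]
      exact Real.circleAverage_const _ _ _
    · intro k hk
      have hk0 : k ≠ 0 := by omega
      have hcongr : av r (fun s => s⁻¹ ^ k * ((1 + 2 * (Rt g t s).re : ℝ) : ℂ)) =
          av r (fun s => (s⁻¹ ^ k * 1 + s⁻¹ ^ k * Rt g t s) +
            ((r:ℂ)⁻¹ ^ (2 * k)) • (starRingEnd ℂ) (s ^ k * Rt g t s)) := by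
        refine Real.circleAverage_congr_sphere ?_
        intro s hs
        rw [habs, mem_sphere_zero_iff_norm] at hs
        have hsn : s ≠ 0 := by rw [← norm_pos_iff, hs]; exact hr0
        have hrn : (r:ℂ) ≠ 0 := by exact_mod_cast hr0.ne'
        have hcs : s * (starRingEnd ℂ) s = (r:ℂ) ^ 2 := by
          rw [Complex.mul_conj, Complex.normSq_eq_norm_sq, hs]; push_cast; ring
        have hcn : (starRingEnd ℂ) s = (r:ℂ) ^ 2 * s⁻¹ := by
          rw [← hcs]; field_simp
        have hz : ((1 + 2 * (Rt g t s).re : ℝ) : ℂ) =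
            1 + Rt g t s + (starRingEnd ℂ) (Rt g t s) := by
          rw [add_assoc, Complex.add_conj]; push_cast; ring
        simp only
        rw [hz, smul_eq_mul, map_mul, map_pow, hcn, mul_pow, ← pow_mul]
        have : (r:ℂ)⁻¹ ^ (2 * k) * ((r:ℂ) ^ (2 * k) * s⁻¹ ^ k * (starRingEnd ℂ) (Rt g t s)) =
            s⁻¹ ^ k * (starRingEnd ℂ) (Rt g t s) := by
          rw [← mul_assoc, ← mul_assoc, ← mul_pow, inv_mul_cancel₀ hrn, one_pow, one_mul]
        rw [this]
        ring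
      have hinv : ContinuousOn (fun s : ℂ => s⁻¹ ^ k) (sphere 0 r) := by
        refine (continuousOn_inv₀.mono ?_).pow k
        intro s hs
        rw [mem_sphere_zero_iff_norm] at hs
        have : s ≠ 0 := by rw [← norm_pos_iff, hs]; exact hr0
        exact this
      have c1 : CircleIntegrable (fun s : ℂ => s⁻¹ ^ k * (1:ℂ)) 0 r :=
        hci _ (hinv.mul continuousOn_const)
      have c2 : CircleIntegrable (fun s : ℂ => s⁻¹ ^ k * Rt g t s) 0 r := hci _ (hinv.mul hRc)
      have hpowRt : ContinuousOn (fun s : ℂ => s ^ k * Rt g t s) (sphere 0 r) :=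
        (continuousOn_id.pow k).mul hRc
      have hcj : ContinuousOn (fun s : ℂ => (starRingEnd ℂ) (s ^ k * Rt g t s)) (sphere 0 r) :=
        Complex.continuous_conj.comp_continuousOn hpowRt
      have c4 : CircleIntegrable (fun s : ℂ => ((r:ℂ)⁻¹ ^ (2 * k)) •
          (starRingEnd ℂ) (s ^ k * Rt g t s)) 0 r :=
        hci _ (hcj.const_smul ((r:ℂ)⁻¹ ^ (2 * k)))
      have c12 : CircleIntegrable (fun s : ℂ => s⁻¹ ^ k * (1:ℂ) + s⁻¹ ^ k * Rt g t s) 0 r :=
        hci _ ((hinv.mul continuousOn_const).add (hinv.mul hRc))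
      have a1 : av r (fun s : ℂ => s⁻¹ ^ k * (1:ℂ)) = 0 := by
        rw [av_tc (f := fun _ => (1:ℂ)) (differentiableOn_const _) hr0 hr k]
        have := tc_pow (k := k) (j := 0)
        simp only [pow_zero] at this
        rw [this, if_neg hk0]
      have a3 : av r (fun s : ℂ => (starRingEnd ℂ) (s ^ k * Rt g t s)) = 0 := by
        have h := (Complex.conjCLE : ℂ →L[ℝ] ℂ).circleAverage_comp_comm (hci _ hpowRt)
        have h' : ((Complex.conjCLE : ℂ →L[ℝ] ℂ) : ℂ → ℂ) ∘ (fun s : ℂ => s ^ k * Rt g t s) =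
          fun s => (starRingEnd ℂ) (s ^ k * Rt g t s) := rfl
        rw [h'] at h
        have hd2 : DifferentiableOn ℂ (fun s : ℂ => s ^ k * Rt g t s) (ball 0 1) :=
          (differentiableOn_id.pow k).mul hRd
        rw [av, h, DiffContOnCl.circleAverage (by rw [habs]; exact dcl hd2 hr), zero_pow hk0,
          zero_mul, map_zero]
      rw [hcongr, av, Real.circleAverage_fun_add c12 c4, Real.circleAverage_fun_add c1 c2,
        Real.circleAverage_fun_smul]
      change av r _ + av r _ + _ • av r _ = _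
      rw [a1, a3, smul_zero, add_zero, zero_add, av_tc hRd hr0 hr, ← RR_eq hg hinj hd h0 htb htn]

end KZ.Rk

namespace KZ

theorem st_RK (hLVL : ST_LVL) : ST_RK := Rk.rk_of hLVL

end KZ
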